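import Pool.Agent.W407.HRC.Exc

/-!
# Few exceptional boxes, with linear dependence on the threshold
-/

set_option autoImplicit false

open Finset

namespace Pool.Agent.P8H6.Log

open Pool.Agent.H361R2.PP
open Pool.Agent.W70.HR
open Pool.Agent.W70.HRC

open Classical in
theorem exc_lin (hMV : S_MV) (k T K : ℕ) (Λ : ℝ) (hT : k + 1 ≤ T) (hK : 1 ≤ K)
    (hMT : MTc k T K Λ) (η : ℝ) (hη : 0 < η) :
    ∃ C : ℝ, 0 < C ∧ ∃ X₀ : ℕ, ∀ X : ℕ, X₀ ≤ X → ∀ b : ℕ, b < Wm X →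
    ∀ V ⊆ Bw Λ X b, η * (Real.log X * (Nat.totient (Wm X) / Wm X)) ≤ (V.card : ℝ) →
    ∀ δ : ℝ, 0 ≤ δ →
    ((ExC (fun F => δ * ex X (k + 1) ≤ (cnB X b F : ℝ)) k T K V).card : ℝ) ≤
      C * δ * (V.card : ℝ) ^ (T * K) := by
  obtain ⟨δm, c, hδm0, hδm1, hc, X₁, hX₁⟩ := hMT
  obtain ⟨cV, hcV, hMV⟩ := hMV
  obtain ⟨X₃, hX₃⟩ := hMV δm hδm0 (by linarith)
  have hN : k + 1 ≤ T * K := hT.trans (Nat.le_mul_of_pos_right T (by omega))
  obtain ⟨m, hm⟩ : ∃ m : ℕ, T * K = (k + 1) + m := ⟨T * K - (k + 1), by omega⟩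
  have hTK : 0 < T * K := by omega
  have hTK' : (0 : ℝ) < ((T * K : ℕ) : ℝ) := by exact_mod_cast hTK
  obtain ⟨Q, hQ⟩ : ∃ Q : ℝ, Q = ((T * K : ℕ) : ℝ) ^ (T * K) * (1 / η) ^ m := ⟨_, rfl⟩
  obtain ⟨P, hP⟩ : ∃ P : ℝ, P = c * (cV / δm) ^ (T * K) := ⟨_, rfl⟩
  have hP0 : 0 < P := by rw [hP]; positivity
  have hQ0 : 0 < Q := by rw [hQ]; positivity
  refine ⟨Q / P, by positivity, X₁ + X₃ + 16, ?_⟩
  intro X hX b hb V hV hVc δ hδ
  obtain ⟨hVV, hlow⟩ := hX₁ X (by omega) b hb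
  have hmv := hX₃ X (by omega)
  obtain ⟨L, hL⟩ : ∃ L : ℝ, L = Real.log X := ⟨_, rfl⟩
  have hL0 : 0 < L := by
    rw [hL]
    apply Real.log_pos
    have : (16 : ℝ) ≤ X := by exact_mod_cast (by omega : 16 ≤ X)
    linarith
  have hX0 : (0 : ℝ) < X := by exact_mod_cast (by omega : 0 < X)
  have hW0 : (0 : ℝ) < Wm X := by
    exact_mod_cast primorial_pos _
  have hφ0 : (0 : ℝ) < Nat.totient (Wm X) := by
    have : 0 < Wm X := primorial_pos _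
    exact_mod_cast Nat.totient_pos.2 this
  obtain ⟨φ, hφ⟩ : ∃ φ : ℝ, φ = (Nat.totient (Wm X) : ℝ) / Wm X := ⟨_, rfl⟩
  have hφp : 0 < φ := by rw [hφ]; positivity
  rw [← hL, ← hφ] at hVc hmv
  have hex : ex X (k + 1) = (X : ℝ) / Wm X * (1 / (L * φ)) ^ (k + 1) := by
    unfold ex
    rw [← hL, hφ]
    congr 2
    field_simp
  have hex0 : 0 < ex X (k + 1) := by rw [hex]; positivity
  have hx0 : 0 < (X : ℝ) / Wm X := by positivity
  have hmain := Pool.Agent.W407.HRC.count (T := T) (K := K) (k := k) δm Λ δ X b V hV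
    (c * Om δm X (T * K)) hlow (by positivity)
  obtain ⟨E, hE⟩ : ∃ E : ℝ,
    E = ((ExC (fun F => δ * ex X (k + 1) ≤ (cnB X b F : ℝ)) k T K V).card : ℝ) := ⟨_, rfl⟩
  rw [← hE] at hmain ⊢
  have hE0 : 0 ≤ E := by rw [hE]; exact Nat.cast_nonneg _
  obtain ⟨x, hx⟩ : ∃ x : ℝ, x = L * φ := ⟨_, rfl⟩
  have hxp : 0 < x := by rw [hx]; positivity
  obtain ⟨v, hv⟩ : ∃ v : ℝ, v = (V.card : ℝ) := ⟨_, rfl⟩
  obtain ⟨w, hw⟩ : ∃ w : ℝ, w = VV δm X := ⟨_, rfl⟩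
  obtain ⟨z, hz⟩ : ∃ z : ℝ, z = (X : ℝ) / Wm X := ⟨_, rfl⟩
  have hv0 : 0 < v := by
    rw [hv]
    refine lt_of_lt_of_le ?_ hVc
    positivity
  have hOm : Om δm X (T * K) = z * w ^ (T * K) := by rw [hz, hw]; rfl
  rw [hOm, hex, ← hx, ← hv, ← hz] at hmain
  rw [← hv]
  rw [← hx, ← hv] at hVc
  rw [← hw] at hmv hVV
  rw [← hz] at hx0
  -- `E c w ^ N ≤ N ^ N δ (v / x) ^ (k + 1)`
  have h1 : E * (c * w ^ (T * K)) ≤
      ((T * K : ℕ) : ℝ) ^ (T * K) * (δ * (v / x) ^ (k + 1)) := by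
    have h2 : (E * (c * w ^ (T * K))) * z ≤
        (((T * K : ℕ) : ℝ) ^ (T * K) * (δ * (v / x) ^ (k + 1))) * z := by
      calc (E * (c * w ^ (T * K))) * z = E * (c * (z * w ^ (T * K))) := by ring
        _ ≤ _ := hmain
        _ = _ := by rw [div_pow, div_pow, one_pow]; ring
    exact le_of_mul_le_mul_right h2 hx0
  -- `w ≥ cV / (δm x)`
  have h2 : cV / δm ≤ w * x := by
    rw [div_le_iff₀ hδm0, hx]
    calc cV ≤ w * φ * (δm * L) := hmv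
      _ = _ := by ring
  have h3 : (cV / δm) ^ (T * K) ≤ w ^ (T * K) * x ^ (T * K) := by
    rw [← mul_pow]
    exact pow_le_pow_left₀ (by positivity) h2 _
  -- `x ≤ v / η`
  have h4 : x ≤ (1 / η) * v := by
    rw [one_div, inv_mul_eq_div, le_div_iff₀ hη]
    linarith
  have h5 : x ^ m ≤ (1 / η) ^ m * v ^ m := by
    rw [← mul_pow]
    exact pow_le_pow_left₀ hxp.le h4 _
  have h6 : E * P ≤ (Q / P * δ * v ^ (T * K)) * P := by
    calc E * P = E * (c * (cV / δm) ^ (T * K)) := by rw [hP]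
      _ ≤ E * (c * (w ^ (T * K) * x ^ (T * K))) := by gcongr
      _ = (E * (c * w ^ (T * K))) * x ^ (T * K) := by ring
      _ ≤ (((T * K : ℕ) : ℝ) ^ (T * K) * (δ * (v / x) ^ (k + 1))) * x ^ (T * K) := by
          gcongr
      _ = ((T * K : ℕ) : ℝ) ^ (T * K) * (δ * (v ^ (k + 1) * x ^ m)) := by
          have h7 : (v / x) ^ (k + 1) * x ^ (T * K) = v ^ (k + 1) * x ^ m := by
            rw [hm, pow_add x (k + 1) m, ← mul_assoc, ← mul_pow, div_mul_cancel₀ _ hxp.ne']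
          rw [← h7]; ring
      _ ≤ ((T * K : ℕ) : ℝ) ^ (T * K) *
            (δ * (v ^ (k + 1) * ((1 / η) ^ m * v ^ m))) := by gcongr
      _ = Q * δ * v ^ (T * K) := by
          rw [hQ]
          have h8 : v ^ (T * K) = v ^ (k + 1) * v ^ m := by rw [← pow_add, ← hm]
          rw [h8]; ring
      _ = (Q / P * δ * v ^ (T * K)) * P := by field_simp
  exact le_of_mul_le_mul_right h6 hP0

end Pool.Agent.P8H6.Log
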