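import Pool.Agent.P8H6.Log.Tup
import Pool.Agent.P8H6.Log.Exc
import Pool.Agent.W70.HRC.Avc

/-!
# From one class to all the classes
-/

set_option autoImplicit false

open Finset

namespace Pool.Agent.P8H6.Log

open Pool.Agent.H361R2.PP
open Pool.Agent.W70.HR
open Pool.Agent.W70.HRC
open Pool.Agent.W131.HR (Vb sub_Vb choose_sum Wpos)

/-- the positions -/
noncomputable def Ap (Λ : ℝ) (X : ℕ) : Finset ℕ := Icc 1 ⌊Λ * Real.log X⌋₊

theorem Vb_eq (Λ : ℝ) (X b : ℕ) : Vb X (Ap Λ X) b = Bw Λ X b := by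
  classical
  ext a
  unfold Vb Ap Bw BB
  rw [mem_filter]

/-- supersets -/
theorem card_super (V F : Finset ℕ) (T : ℕ) :
    ((V.powersetCard T).filter (fun H => F ⊆ H)).card ≤ V.card ^ (T - F.card) := by
  classical
  calc ((V.powersetCard T).filter (fun H => F ⊆ H)).card ≤ (V.powersetCard (T - F.card)).card := by
        refine card_le_card_of_injOn (fun H => H \ F) ?_ ?_
        · intro H hH
          rw [mem_coe, mem_filter, mem_powersetCard] at hH
          rw [mem_coe, mem_powersetCard]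
          refine ⟨sdiff_subset.trans hH.1.1, ?_⟩
          simp only
          rw [card_sdiff_of_subset hH.2, hH.1.2]
        · intro H hH H' hH' he
          rw [mem_coe, mem_filter, mem_powersetCard] at hH hH'
          simp only at he
          rw [← sdiff_union_of_subset hH.2, ← sdiff_union_of_subset hH'.2, he]
    _ ≤ V.card ^ (T - F.card) := by
        rw [card_powersetCard]
        exact Nat.choose_le_pow _ _

/-- the set of shifts has fewer occurrences as consecutive primes than `δ` times the expected number -/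
def BadF (k : ℕ) (δ : ℝ) (X : ℕ) (F : Finset ℕ) : Prop :=
  (cnT X F : ℝ) < δ * ((gW X F : ℝ) * ex X (k + 1))

open Classical in
/-- the exceptional sets of shifts -/
noncomputable def HH' (k T : ℕ) (Λ δ : ℝ) (X : ℕ) : Finset (Finset ℕ) :=
  ((Ap Λ X).powersetCard T).filter (fun H => ∀ F ⊆ H, F.card = k + 1 → BadF k δ X F)

open Classical in
theorem sum_gW (k T : ℕ) (Λ δ : ℝ) (X : ℕ) :
    ∑ H ∈ HH' k T Λ δ X, gW X H =
      ∑ b ∈ range (Wm X), ((HH' k T Λ δ X).filter (fun H => H ⊆ Bw Λ X b)).card := by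
  have := sum_card_bipartiteAbove_eq_sum_card_bipartiteBelow
    (s := range (Wm X)) (t := HH' k T Λ δ X) (fun b H => H ⊆ Bw Λ X b)
  refine Eq.trans ?_ this.symm
  apply sum_congr rfl
  intro H hH
  unfold gW bipartiteBelow
  congr 1
  apply filter_congr
  intro b _
  unfold HH' at hH
  rw [mem_filter, mem_powersetCard] at hH
  simp only
  rw [← Vb_eq]
  exact (sub_Vb X (Ap Λ X) H hH.1.1 b).symm

open Classical in
/-- the good but globally bad sets of the class `b` -/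
noncomputable def QB (k : ℕ) (Λ δ δ' : ℝ) (X b : ℕ) : Finset (Finset ℕ) :=
  ((Ap Λ X).powersetCard (k + 1)).filter (fun F => F ⊆ Bw Λ X b ∧
    δ' * ex X (k + 1) ≤ (cnB X b F : ℝ) ∧ BadF k δ X F)

open Classical in
theorem one_class (k T : ℕ) (hT : k + 1 ≤ T) (Λ δ δ' : ℝ) (X b : ℕ) :
    ((HH' k T Λ δ X).filter (fun H => H ⊆ Bw Λ X b)).card ≤
      (((Bw Λ X b).powersetCard T).filter (fun H => ∀ F ⊆ H, F.card = k + 1 →
        ¬ (δ' * ex X (k + 1) ≤ (cnB X b F : ℝ)))).card +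
      (QB k Λ δ δ' X b).card * (Bw Λ X b).card ^ (T - (k + 1)) := by
  have h1 : (HH' k T Λ δ X).filter (fun H => H ⊆ Bw Λ X b) ⊆
      (((Bw Λ X b).powersetCard T).filter (fun H => ∀ F ⊆ H, F.card = k + 1 →
        ¬ (δ' * ex X (k + 1) ≤ (cnB X b F : ℝ)))) ∪
      (QB k Λ δ δ' X b).biUnion (fun F => ((Bw Λ X b).powersetCard T).filter (fun H => F ⊆ H)) := by
    intro H hH
    unfold HH' at hH
    rw [mem_filter, mem_filter, mem_powersetCard] at hH
    obtain ⟨⟨⟨hHA, hHc⟩, hHb⟩, hHV⟩ := hH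
    have hmem : H ∈ (Bw Λ X b).powersetCard T := mem_powersetCard.2 ⟨hHV, hHc⟩
    rw [mem_union]
    by_cases hg : ∀ F ⊆ H, F.card = k + 1 → ¬ (δ' * ex X (k + 1) ≤ (cnB X b F : ℝ))
    · exact Or.inl (mem_filter.2 ⟨hmem, hg⟩)
    · right
      push Not at hg
      obtain ⟨F, hFH, hFc, hF⟩ := hg
      rw [mem_biUnion]
      refine ⟨F, ?_, mem_filter.2 ⟨hmem, hFH⟩⟩
      unfold QB
      rw [mem_filter, mem_powersetCard]
      exact ⟨⟨hFH.trans hHA, hFc⟩, hFH.trans hHV, hF, hHb F hFH hFc⟩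
  refine (card_le_card h1).trans ((card_union_le _ _).trans ?_)
  apply Nat.add_le_add_left
  refine card_biUnion_le.trans ?_
  rw [← smul_eq_mul, ← sum_const]
  apply sum_le_sum
  intro F hF
  unfold QB at hF
  rw [mem_filter, mem_powersetCard] at hF
  have h2 := card_super (Bw Λ X b) F T
  rw [hF.1.2] at h2
  convert h2

open Classical in
/-- there are few sets which are good in many classes but bad globally -/
theorem sum_QB (k : ℕ) (Λ δ δ' : ℝ) (hδ' : 0 < δ') (hδ : 0 ≤ δ) (X : ℕ) (hX : 0 < ex X (k + 1)) :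
    ∑ b ∈ range (Wm X), ((QB k Λ δ δ' X b).card : ℝ) ≤
      δ / δ' * ∑ b ∈ range (Wm X), ((Bw Λ X b).card : ℝ) ^ (k + 1) := by
  -- exchange
  have h1 : ∑ b ∈ range (Wm X), (QB k Λ δ δ' X b).card =
      ∑ F ∈ ((Ap Λ X).powersetCard (k + 1)).filter (fun F => BadF k δ X F),
        gp k δ' X (Ap Λ X) F := by
    have := sum_card_bipartiteAbove_eq_sum_card_bipartiteBelow
      (s := range (Wm X))
      (t := ((Ap Λ X).powersetCard (k + 1)).filter (fun F => BadF k δ X F))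
      (fun b F => F ⊆ Vb X (Ap Λ X) b ∧ δ' * ex X (k + 1) ≤ (cnB X b F : ℝ))
    refine Eq.trans ?_ (this.trans ?_)
    · apply sum_congr rfl
      intro b _
      congr 1
      ext F
      unfold QB bipartiteAbove
      rw [mem_filter, mem_filter, mem_filter]
      simp only
      rw [Vb_eq]
      tauto
    · apply sum_congr rfl
      intro F _
      rfl
  have h2 : ∀ F ∈ ((Ap Λ X).powersetCard (k + 1)).filter (fun F => BadF k δ X F),
      (gp k δ' X (Ap Λ X) F : ℝ) ≤ δ / δ' * (gW X F : ℝ) := by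
    intro F hF
    rw [mem_filter] at hF
    have h3 := cnT_ge k δ' X (Ap Λ X) F
    have h4 := hF.2
    unfold BadF at h4
    have h5 : (gp k δ' X (Ap Λ X) F : ℝ) * δ' * ex X (k + 1) ≤
        δ * (gW X F : ℝ) * ex X (k + 1) := by
      calc (gp k δ' X (Ap Λ X) F : ℝ) * δ' * ex X (k + 1) =
          (gp k δ' X (Ap Λ X) F : ℝ) * (δ' * ex X (k + 1)) := by ring
        _ ≤ (cnT X F : ℝ) := h3
        _ ≤ δ * ((gW X F : ℝ) * ex X (k + 1)) := h4.le
        _ = _ := by ring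
    have h6 := le_of_mul_le_mul_right h5 hX
    rw [div_mul_eq_mul_div, le_div_iff₀ hδ']
    exact h6
  have h3 : ∑ b ∈ range (Wm X), ((QB k Λ δ δ' X b).card : ℝ) =
      ∑ F ∈ ((Ap Λ X).powersetCard (k + 1)).filter (fun F => BadF k δ X F),
        (gp k δ' X (Ap Λ X) F : ℝ) := by exact_mod_cast h1
  rw [h3]
  calc ∑ F ∈ ((Ap Λ X).powersetCard (k + 1)).filter (fun F => BadF k δ X F),
        (gp k δ' X (Ap Λ X) F : ℝ) ≤
      ∑ F ∈ ((Ap Λ X).powersetCard (k + 1)).filter (fun F => BadF k δ X F),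
        δ / δ' * (gW X F : ℝ) := sum_le_sum h2
    _ ≤ ∑ F ∈ (Ap Λ X).powersetCard (k + 1), δ / δ' * (gW X F : ℝ) := by
        apply sum_le_sum_of_subset_of_nonneg (filter_subset _ _)
        intro _ _ _
        positivity
    _ = δ / δ' * ∑ F ∈ (Ap Λ X).powersetCard (k + 1), (gW X F : ℝ) := by rw [mul_sum]
    _ ≤ _ := by
        apply mul_le_mul_of_nonneg_left _ (by positivity)
        have h4 : ∑ F ∈ (Ap Λ X).powersetCard (k + 1), (gW X F : ℝ) =
            ∑ b ∈ range (Wm X), (((Vb X (Ap Λ X) b).card.choose (k + 1) : ℕ) : ℝ) := by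
          exact_mod_cast choose_sum k X (Ap Λ X)
        rw [h4]
        apply sum_le_sum
        intro b _
        rw [Vb_eq]
        exact_mod_cast Nat.choose_le_pow _ _

/-- the average over the classes -/
theorem all_classes (hMV : S_MV) (hCnt : Cnt) (k T K : ℕ) (Λ : ℝ) (hΛ : 0 < Λ) (hΛ1 : Λ ≤ 1)
    (hT : k + 1 ≤ T) (hK : 1 ≤ K) (hMT : MTc k T K Λ) :
    ∃ C : ℝ, 0 < C ∧ ∃ X₀ : ℕ, ∀ X : ℕ, X₀ ≤ X → ∀ δ δ' : ℝ, 0 ≤ δ → 0 < δ' →
      ∑ H ∈ HH' k T Λ δ X, (gW X H : ℝ) ≤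
        Wm X * (2 * (Real.log X * (Nat.totient (Wm X) / Wm X))) ^ T *
          ((C * (δ' + 1 / (Real.log X * (Nat.totient (Wm X) / Wm X)))) ^ (1 / (K ^ T : ℕ) : ℝ) +
            δ / δ') := by
  classical
  obtain ⟨C₁, hC₁, X₁, hX₁⟩ := exc_lin hMV k T K Λ hT hK hMT (Λ / 2) (by positivity)
  obtain ⟨X₂, hX₂⟩ := hCnt (1 / 2) Λ Λ (by norm_num) hΛ hΛ
  refine ⟨C₁ + 2 * ((T * K : ℕ) : ℝ) ^ 2 / Λ, by positivity, X₁ + X₂ + 16, ?_⟩
  intro X hX δ δ' hδ hδ'
  have hXr : (16 : ℝ) ≤ X := by exact_mod_cast (by omega : 16 ≤ X)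
  have hL : 0 < Real.log X := Real.log_pos (by linarith)
  have hW0 : (0 : ℝ) < Wm X := by exact_mod_cast Wpos X
  have hφ0 : (0 : ℝ) < Nat.totient (Wm X) := by exact_mod_cast Nat.totient_pos.2 (Wpos X)
  obtain ⟨N, hN⟩ : ∃ N : ℝ, N = Real.log X * (Nat.totient (Wm X) / Wm X) := ⟨_, rfl⟩
  have hN0 : 0 < N := by rw [hN]; positivity
  rw [← hN]
  have hex0 : 0 < ex X (k + 1) := by unfold ex; positivity
  -- the size of the classes
  have hsize : ∀ b, Λ / 2 * N ≤ ((Bw Λ X b).card : ℝ) ∧ ((Bw Λ X b).card : ℝ) ≤ 2 * N := by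
    intro b
    have h1 := hX₂ X (by omega) b 0 (Λ * Real.log X) le_rfl (by linarith) le_rfl
    have h2 : (BB X b ⌊Λ * Real.log X⌋₊).filter (fun a : ℕ => (0 : ℝ) < a ∧
        (a : ℝ) ≤ Λ * Real.log X) = Bw Λ X b := by
      unfold Bw
      rw [filter_eq_self]
      intro a ha
      unfold BB at ha
      rw [mem_filter, mem_Icc] at ha
      refine ⟨by exact_mod_cast ha.1.1, ?_⟩
      exact (Nat.le_floor_iff (by positivity)).1 ha.1.2
    rw [h2, sub_zero] at h1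
    have h3 : Λ * Real.log X * (Nat.totient (Wm X) / Wm X) = Λ * N := by rw [hN]; ring
    rw [h3, abs_le] at h1
    have h4 : Λ * N ≤ N := by nlinarith
    constructor
    · linarith [h1.1]
    · linarith [h1.2]
  have hne : ∀ b, (Bw Λ X b).Nonempty := by
    intro b
    rw [← card_pos]
    have h1 : 0 < ((Bw Λ X b).card : ℝ) := lt_of_lt_of_le (by positivity) (hsize b).1
    exact_mod_cast h1
  obtain ⟨κ, hκ⟩ : ∃ κ : ℝ, κ = 1 / (K ^ T : ℕ) := ⟨_, rfl⟩
  have hκ0 : 0 ≤ κ := by rw [hκ]; positivity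
  obtain ⟨C, hC⟩ : ∃ C : ℝ, C = C₁ + 2 * ((T * K : ℕ) : ℝ) ^ 2 / Λ := ⟨_, rfl⟩
  rw [← hκ, ← hC]
  have hC0 : 0 < C := by rw [hC]; positivity
  -- first part
  have hfirst : ∀ b ∈ range (Wm X),
      ((((Bw Λ X b).powersetCard T).filter (fun H => ∀ F ⊆ H, F.card = k + 1 →
        ¬ (δ' * ex X (k + 1) ≤ (cnB X b F : ℝ)))).card : ℝ) ≤
        (C * (δ' + 1 / N)) ^ κ * (2 * N) ^ T := by
    intro b hb
    have h1 := hX₁ X (by omega) b (mem_range.1 hb) (Bw Λ X b) (Subset.refl _)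
      (by rw [← hN]; exact (hsize b).1) δ' hδ'.le
    have h2 := tup_set k T K hK (Bw Λ X b) (hne b)
      (fun F => δ' * ex X (k + 1) ≤ (cnB X b F : ℝ)) (C₁ * δ') h1
    refine le_trans (by convert h2) ?_
    rw [← hκ]
    apply mul_le_mul _ (pow_le_pow_left₀ (by positivity) (hsize b).2 _) (by positivity)
      (by positivity)
    apply Real.rpow_le_rpow (by positivity) _ hκ0
    have h3 : ((T * K : ℕ) : ℝ) ^ 2 / ((Bw Λ X b).card : ℝ) ≤
        2 * ((T * K : ℕ) : ℝ) ^ 2 / Λ * (1 / N) := by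
      calc ((T * K : ℕ) : ℝ) ^ 2 / ((Bw Λ X b).card : ℝ) ≤
          ((T * K : ℕ) : ℝ) ^ 2 / (Λ / 2 * N) :=
            div_le_div_of_nonneg_left (by positivity) (by positivity) (hsize b).1
        _ = _ := by field_simp
    have h4 : 0 ≤ 2 * ((T * K : ℕ) : ℝ) ^ 2 / Λ * δ' := by positivity
    have h5 : 0 ≤ C₁ * (1 / N) := by positivity
    rw [hC]
    nlinarith
  -- sum
  have h1 : ∑ H ∈ HH' k T Λ δ X, (gW X H : ℝ) =
      ∑ b ∈ range (Wm X), (((HH' k T Λ δ X).filter (fun H => H ⊆ Bw Λ X b)).card : ℝ) := by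
    exact_mod_cast sum_gW k T Λ δ X
  rw [h1]
  have h2 : ∀ b ∈ range (Wm X), (((HH' k T Λ δ X).filter (fun H => H ⊆ Bw Λ X b)).card : ℝ) ≤
      (C * (δ' + 1 / N)) ^ κ * (2 * N) ^ T +
        ((QB k Λ δ δ' X b).card : ℝ) * (2 * N) ^ (T - (k + 1)) := by
    intro b hb
    have h3 := one_class k T hT Λ δ δ' X b
    have h4 : (((HH' k T Λ δ X).filter (fun H => H ⊆ Bw Λ X b)).card : ℝ) ≤
        ((((Bw Λ X b).powersetCard T).filter (fun H => ∀ F ⊆ H, F.card = k + 1 →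
          ¬ (δ' * ex X (k + 1) ≤ (cnB X b F : ℝ)))).card : ℝ) +
        ((QB k Λ δ δ' X b).card : ℝ) * ((Bw Λ X b).card : ℝ) ^ (T - (k + 1)) := by
      exact_mod_cast h3
    refine h4.trans (add_le_add (hfirst b hb) ?_)
    apply mul_le_mul_of_nonneg_left _ (by positivity)
    exact pow_le_pow_left₀ (by positivity) (hsize b).2 _
  refine (sum_le_sum h2).trans ?_
  rw [sum_add_distrib, sum_const, card_range, nsmul_eq_mul, ← sum_mul]
  have h3 := sum_QB k Λ δ δ' hδ' hδ X hex0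
  have h4 : ∑ b ∈ range (Wm X), ((Bw Λ X b).card : ℝ) ^ (k + 1) ≤ Wm X * (2 * N) ^ (k + 1) := by
    calc ∑ b ∈ range (Wm X), ((Bw Λ X b).card : ℝ) ^ (k + 1) ≤
        ∑ _b ∈ range (Wm X), (2 * N) ^ (k + 1) :=
          sum_le_sum fun b _ => pow_le_pow_left₀ (by positivity) (hsize b).2 _
      _ = _ := by rw [sum_const, card_range, nsmul_eq_mul]
  have h5 : (∑ b ∈ range (Wm X), ((QB k Λ δ δ' X b).card : ℝ)) * (2 * N) ^ (T - (k + 1)) ≤
      Wm X * (2 * N) ^ T * (δ / δ') := by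
    calc (∑ b ∈ range (Wm X), ((QB k Λ δ δ' X b).card : ℝ)) * (2 * N) ^ (T - (k + 1)) ≤
        (δ / δ' * (Wm X * (2 * N) ^ (k + 1))) * (2 * N) ^ (T - (k + 1)) := by
          apply mul_le_mul_of_nonneg_right _ (by positivity)
          exact h3.trans (mul_le_mul_of_nonneg_left h4 (by positivity))
      _ = Wm X * ((2 * N) ^ (k + 1) * (2 * N) ^ (T - (k + 1))) * (δ / δ') := by ring
      _ = _ := by
          rw [← pow_add]
          congr 3
          omega
  calc (Wm X : ℝ) * ((C * (δ' + 1 / N)) ^ κ * (2 * N) ^ T) +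
        (∑ b ∈ range (Wm X), ((QB k Λ δ δ' X b).card : ℝ)) * (2 * N) ^ (T - (k + 1)) ≤
      (Wm X : ℝ) * ((C * (δ' + 1 / N)) ^ κ * (2 * N) ^ T) + Wm X * (2 * N) ^ T * (δ / δ') :=
        add_le_add le_rfl h5
    _ = _ := by ring

end Pool.Agent.P8H6.Log
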