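import Pool.Agent.H387R2.U2

/-!
# A uniform lower bound of the singular series of admissible sets
-/

set_option autoImplicit false

open Finset Filter Topology

namespace Pool.Agent.P8H6.Log

open Pool.Agent.H387R2.Uni

theorem one_sub_sum_le {ι : Type*} [DecidableEq ι] (s : Finset ι) (f : ι → ℝ) :
    (∀ i ∈ s, 0 ≤ f i) → (∀ i ∈ s, f i ≤ 1) → 1 - ∑ i ∈ s, f i ≤ ∏ i ∈ s, (1 - f i) := by
  induction s using Finset.induction_on with
  | empty => intro _ _; simp
  | insert a s ha ih =>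
    intro h0 h1
    rw [sum_insert ha, prod_insert ha]
    have i1 := ih (fun i hi => h0 i (mem_insert_of_mem hi)) (fun i hi => h1 i (mem_insert_of_mem hi))
    have a0 := h0 a (mem_insert_self a s)
    have a1 := h1 a (mem_insert_self a s)
    have s0 : 0 ≤ ∑ i ∈ s, f i := sum_nonneg fun i hi => h0 i (mem_insert_of_mem hi)
    calc 1 - (f a + ∑ i ∈ s, f i) ≤ (1 - f a) * (1 - ∑ i ∈ s, f i) := by nlinarith
      _ ≤ _ := mul_le_mul_of_nonneg_left i1 (by linarith)

lemma locT_nonneg' (T : Finset ℕ) {p : ℕ} (hp : p.Prime) : 0 ≤ locT T p := by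
  rw [← loc_en]; exact Pool.Agent.H386R2.HL.localFactor_nonneg (en T) hp

lemma locT_ge' (T : Finset ℕ) {p : ℕ} (hp : 2 ≤ p) (hTp : T.card ≤ p) :
    1 - (T.card : ℝ) ^ 2 * ((p : ℝ) ^ 2)⁻¹ ≤ locT T p := by
  unfold locT
  set r := T.card with hr
  have hp0 : (0:ℝ) < p := by exact_mod_cast (by omega : 0 < p)
  have hp2 : (2:ℝ) ≤ p := by exact_mod_cast hp
  set x : ℝ := 1 / p with hx
  have hx0 : 0 < x := by positivity
  have hx1 : x ≤ 1 / 2 := one_div_le_one_div_of_le (by norm_num) hp2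
  have hrx : (r:ℝ) * x ≤ 1 := by
    rw [hx, mul_one_div, div_le_one hp0]
    exact_mod_cast hTp
  have h1 : (1 - x) ^ r * (1 + r * x) ≤ 1 := by
    have h2 : 1 + (r:ℝ) * x ≤ (1 + x) ^ r := one_add_mul_le_pow (by linarith) r
    calc (1 - x) ^ r * (1 + r * x) ≤ (1 - x) ^ r * (1 + x) ^ r :=
          mul_le_mul_of_nonneg_left h2 (pow_nonneg (by linarith) _)
      _ = ((1 - x) * (1 + x)) ^ r := by rw [mul_pow]
      _ ≤ 1 := pow_le_one₀ (mul_nonneg (by linarith) (by linarith)) (by nlinarith)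
  have h2 : 0 < (1 - x) ^ r := pow_pos (by linarith) _
  rw [le_div_iff₀ h2]
  have h3 : (nuT T p : ℝ) / p ≤ r * x := by
    rw [hx, mul_one_div]
    apply div_le_div_of_nonneg_right _ hp0.le
    exact_mod_cast card_image_le
  have h4 : 1 - (r:ℝ) ^ 2 * ((p : ℝ) ^ 2)⁻¹ = (1 - r * x) * (1 + r * x) := by
    rw [hx]; field_simp; ring
  rw [h4]
  calc (1 - r * x) * (1 + r * x) * (1 - x) ^ r = (1 - r * x) * ((1 - x) ^ r * (1 + r * x)) := by ring
    _ ≤ (1 - r * x) * 1 := mul_le_mul_of_nonneg_left h1 (by linarith)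
    _ ≤ 1 - (nuT T p : ℝ) / p := by linarith

lemma sum_inv_sq_gt' {y : ℕ} (hy : 1 ≤ y) (S : Finset ℕ) (hS : ∀ p ∈ S, y < p) :
    ∑ p ∈ S, ((p:ℝ) ^ 2)⁻¹ ≤ 1 / y := by
  have hy0 : (0:ℝ) < y := by exact_mod_cast hy
  rcases S.eq_empty_or_nonempty with rfl | hne
  · simp
  · have hsub : S ⊆ Ioc y (S.sup id) := by
      intro p hp
      rw [mem_Ioc]
      exact ⟨hS p hp, le_sup (f := id) hp⟩
    have hle : y ≤ S.sup id := by
      obtain ⟨p, hp⟩ := hne
      have := mem_Ioc.1 (hsub hp)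
      omega
    have h1 := sum_Ioc_inv_sq_le_sub (α := ℝ) (by omega : y ≠ 0) hle
    refine (sum_le_sum_of_subset_of_nonneg hsub fun i _ _ => by positivity).trans (h1.trans ?_)
    have : (0:ℝ) ≤ ((S.sup id : ℕ) : ℝ)⁻¹ := by positivity
    rw [one_div]
    linarith

/-- the local factor of an admissible set -/
lemma locT_adm (T : Finset ℕ) {p : ℕ} (hp : p.Prime) (hT : nuT T p < p) : 1 / (p : ℝ) ≤ locT T p := by
  unfold locT
  have hp0 : (0:ℝ) < p := by exact_mod_cast hp.pos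
  have hp2 : (2:ℝ) ≤ p := by exact_mod_cast hp.two_le
  have hx1 : 1 / (p : ℝ) ≤ 1 / 2 := one_div_le_one_div_of_le (by norm_num) hp2
  have hx0 : 0 < 1 / (p : ℝ) := by positivity
  have h2 : 0 < (1 - 1 / (p : ℝ)) ^ T.card := pow_pos (by linarith) _
  have h3 : (1 - 1 / (p : ℝ)) ^ T.card ≤ 1 := pow_le_one₀ (by linarith) (by linarith)
  rw [le_div_iff₀ h2]
  have h4 : (nuT T p : ℝ) + 1 ≤ p := by exact_mod_cast hT
  calc 1 / (p : ℝ) * (1 - 1 / (p : ℝ)) ^ T.card ≤ 1 / (p : ℝ) * 1 :=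
        mul_le_mul_of_nonneg_left h3 hx0.le
    _ ≤ 1 - (nuT T p : ℝ) / p := by
        rw [mul_one, le_sub_iff_add_le, ← add_div, div_le_one hp0]
        linarith

/-- a prime below `y + 1` as an element of the type of primes -/
def mkP (y : ℕ) (p : {x : ℕ // x ∈ (range (y + 1)).filter Nat.Prime}) : Nat.Primes :=
  ⟨p.1, (mem_filter.1 p.2).2⟩

/-- the underlying natural number -/
def toN (p : Nat.Primes) : ℕ := (p : ℕ)

lemma toN_inj : Function.Injective toN := fun _ _ h => Nat.Primes.coe_nat_injective h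

/-- the singular series of the admissible sets of a given size is bounded below -/
theorem CT_lower (l : ℕ) : ∃ c : ℝ, 0 < c ∧ ∀ T : Finset ℕ, T.card = l →
    (∀ p : ℕ, p.Prime → nuT T p < p) → c ≤ CT T := by
  classical
  obtain ⟨y, hy⟩ : ∃ y : ℕ, y = 2 * l ^ 2 + 1 := ⟨_, rfl⟩
  have hy1 : 1 ≤ y := by omega
  have hy0 : (0:ℝ) < y := by exact_mod_cast hy1
  set P0 : Finset ℕ := (range (y + 1)).filter Nat.Prime with hP0
  set c0 : ℝ := ∏ p ∈ P0, (1 / (p : ℝ)) with hc0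
  have hc0p : 0 < c0 := by
    rw [hc0]
    apply prod_pos
    intro p hp
    rw [hP0, mem_filter] at hp
    have : (0:ℝ) < p := by exact_mod_cast hp.2.pos
    positivity
  refine ⟨c0 * (1 / 2), by positivity, ?_⟩
  intro T hTc hadm
  have hprod := CT_hasProd T
  rw [HasProd] at hprod
  set F0 : Finset Nat.Primes := P0.attach.image (mkP y) with hF0
  have hmem : ∀ p : Nat.Primes, p ∈ F0 ↔ (p : ℕ) ∈ P0 := by
    intro p
    rw [hF0, mem_image]
    constructor
    · rintro ⟨a, _, rfl⟩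
      exact a.2
    · intro h
      exact ⟨⟨p, h⟩, mem_attach _ _, rfl⟩
  refine ge_of_tendsto hprod ?_
  filter_upwards [eventually_ge_atTop F0] with F hF
  have hF' : F0 ⊆ F := hF
  rw [← prod_sdiff hF', mul_comm (∏ p ∈ F \ F0, locT T p)]
  have hbig : ∀ p ∈ F \ F0, y < (p : ℕ) := by
    intro p hp
    rw [Finset.mem_sdiff, hmem, hP0, mem_filter, mem_range] at hp
    by_contra h
    exact hp.2 ⟨by omega, p.2⟩
  have hr : ∀ p ∈ F \ F0, T.card ≤ (p : ℕ) := by
    intro p hp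
    have := hbig p hp
    have : T.card ≤ T.card ^ 2 := Nat.le_self_pow (by norm_num) _
    rw [hTc] at this ⊢
    omega
  have h1 : 1 / 2 ≤ ∏ p ∈ F \ F0, locT T p := by
    have hsum : ∑ p ∈ F \ F0, (T.card : ℝ) ^ 2 * (((p : ℕ) : ℝ) ^ 2)⁻¹ ≤ 1 / 2 := by
      rw [← mul_sum]
      have h2 : ∑ p ∈ F \ F0, (((p : ℕ) : ℝ) ^ 2)⁻¹ ≤ 1 / y := by
        have h3 := sum_inv_sq_gt' hy1 ((F \ F0).image toN) (by
          intro p hp
          rw [mem_image] at hp
          obtain ⟨p', hp', rfl⟩ := hp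
          exact hbig p' hp')
        rw [sum_image (fun a _ b _ hab => toN_inj hab)] at h3
        exact h3
      calc (T.card : ℝ) ^ 2 * ∑ p ∈ F \ F0, (((p : ℕ) : ℝ) ^ 2)⁻¹ ≤ (T.card : ℝ) ^ 2 * (1 / y) := by
            gcongr
        _ ≤ 1 / 2 := by
            rw [mul_one_div, div_le_div_iff₀ hy0 (by norm_num)]
            have : (2 * T.card ^ 2 + 1 : ℝ) = y := by rw [hTc, hy]; push_cast; ring
            linarith
    have h2 := one_sub_sum_le (F \ F0) (fun p => (T.card : ℝ) ^ 2 * (((p : ℕ) : ℝ) ^ 2)⁻¹)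
      (fun p _ => by positivity) (fun p hp => by
        have h3 : (T.card : ℝ) ≤ ((p : ℕ) : ℝ) := by exact_mod_cast hr p hp
        have h4 : (0:ℝ) < ((p : ℕ) : ℝ) := by exact_mod_cast p.2.pos
        rw [← div_eq_mul_inv, div_le_one (by positivity)]
        exact pow_le_pow_left₀ (Nat.cast_nonneg _) h3 2)
    have h3 : ∏ p ∈ F \ F0, (1 - (T.card : ℝ) ^ 2 * (((p : ℕ) : ℝ) ^ 2)⁻¹) ≤
        ∏ p ∈ F \ F0, locT T p := by
      apply Finset.prod_le_prod
      · intro p hp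
        have h3 : (T.card : ℝ) ≤ ((p : ℕ) : ℝ) := by exact_mod_cast hr p hp
        have h4 : (0:ℝ) < ((p : ℕ) : ℝ) := by exact_mod_cast p.2.pos
        rw [sub_nonneg, ← div_eq_mul_inv, div_le_one (by positivity)]
        exact pow_le_pow_left₀ (Nat.cast_nonneg _) h3 2
      · intro p hp
        exact locT_ge' T p.2.two_le (hr p hp)
    linarith
  have h2 : c0 ≤ ∏ p ∈ F0, locT T p := by
    have h3 : ∏ p ∈ F0, (1 / ((p : ℕ) : ℝ)) = c0 := by
      rw [hF0, prod_image (by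
        intro a _ b _ hab
        exact Subtype.ext (congrArg (fun p : Nat.Primes => (p : ℕ)) hab)), hc0,
        ← prod_attach P0]
      rfl
    rw [← h3]
    apply Finset.prod_le_prod
    · intro p _
      positivity
    · intro p _
      exact locT_adm T p.2 (hadm p p.2)
  calc c0 * (1 / 2) ≤ (∏ p ∈ F0, locT T p) * (1 / 2) := by gcongr
    _ ≤ (∏ p ∈ F0, locT T p) * ∏ p ∈ F \ F0, locT T p := by
        apply mul_le_mul_of_nonneg_left h1
        exact hc0p.le.trans h2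

end Pool.Agent.P8H6.Log
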