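import Pool.Agent.P8H6.Log.Avg
import Pool.Agent.P8H6.Log.Sing
import Pool.Agent.W70.HRC.Asm

/-!
# Almost every admissible set, in terms of the singular series
-/

set_option autoImplicit false

open Finset

namespace Pool.Agent.P8H6.Log

open Pool.Agent.H361R2.PP
open Pool.Agent.W70.HR
open Pool.Agent.W70.HRC
open Pool.Agent.H387R2.Uni (CT nuT CT_nonneg)
open Pool.Agent.W131.HR (Wpos)

open Classical in
/-- the admissible sets of shifts, no `(k + 1)`-subset of which occurs often as consecutive primes -/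
noncomputable def BadH (k T : ℕ) (Λ δ : ℝ) (X : ℕ) : Finset (Finset ℕ) :=
  ((Ap Λ X).powersetCard T).filter (fun H => (∀ p : ℕ, p.Prime → nuT H p < p) ∧
    ∀ F ⊆ H, F.card = k + 1 → (cnT X F : ℝ) < δ * (CT F * (X / Real.log X ^ (k + 1))))

/-- the expected size of the classes is a power of `log X` -/
theorem N_ge (hW : Wtx) (X : ℕ) (hX : 16 ≤ X) :
    Real.log X ^ (1 / 2 : ℝ) ≤ Real.log X * (Nat.totient (Wm X) / Wm X) := by
  have hXr : (16 : ℝ) ≤ X := by exact_mod_cast hX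
  have he : Real.exp 1 < 3 := lt_trans Real.exp_one_lt_d9 (by norm_num)
  have hl1 : 1 ≤ Real.log X := by
    rw [Real.le_log_iff_exp_le (by linarith)]
    linarith
  have hl : 0 < Real.log X := by linarith
  have hWle := hW.1 X hX
  have hW0 : 0 < Wm X := Wpos X
  have hW0r : (0 : ℝ) < Wm X := by exact_mod_cast hW0
  have hphi : (1 : ℝ) ≤ Nat.totient (Wm X) := by
    exact_mod_cast Nat.totient_pos.mpr hW0
  calc Real.log X ^ (1 / 2 : ℝ) ≤ Real.log X ^ (13 / 20 : ℝ) :=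
        Real.rpow_le_rpow_of_exponent_le hl1 (by norm_num)
    _ = Real.log X / Real.log X ^ (7 / 20 : ℝ) := by
        rw [eq_div_iff (Real.rpow_pos_of_pos hl _).ne', ← Real.rpow_add hl]
        norm_num
    _ ≤ Real.log X / Wm X := div_le_div_of_nonneg_left hl.le hW0r hWle
    _ = Real.log X * (1 / Wm X) := by ring
    _ ≤ Real.log X * (Nat.totient (Wm X) / Wm X) := by
        apply mul_le_mul_of_nonneg_left _ hl.le
        exact div_le_div_of_nonneg_right hphi hW0r.le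

theorem main_X (hMV : S_MV) (hCnt : Cnt) (hCTB : S_CTB) (hW : Wtx) (k T K : ℕ) (Λ : ℝ) (hΛ : 0 < Λ)
    (hΛ1 : Λ ≤ 1) (hT : k + 1 ≤ T) (hK : 1 ≤ K) (hMT : MTc k T K Λ) :
    ∃ κ C : ℝ, 0 < κ ∧ 0 < C ∧ ∃ X₀ : ℕ, ∀ X : ℕ, X₀ ≤ X → ∀ δ : ℝ, 0 < δ →
      ((BadH k T Λ δ X).card : ℝ) ≤ C * (δ ^ κ + Real.log X ^ (-κ)) * Real.log X ^ T := by
  classical
  obtain ⟨C₁, hC₁, X₁, hX₁⟩ := all_classes hMV hCnt k T K Λ hΛ hΛ1 hT hK hMT
  obtain ⟨X₂, hX₂⟩ := hCTB (k + 1) Λ (1 / 2) hΛ (by norm_num)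
  obtain ⟨X₃, hX₃⟩ := hCTB T Λ (1 / 2) hΛ (by norm_num)
  obtain ⟨cT, hcT, hcT'⟩ := CT_lower T
  obtain ⟨κ0, hκ0⟩ : ∃ κ0 : ℝ, κ0 = 1 / (K ^ T : ℕ) := ⟨_, rfl⟩
  have hKT : 1 ≤ K ^ T := Nat.one_le_pow _ _ (by omega)
  have hKTr : (1 : ℝ) ≤ (K ^ T : ℕ) := by exact_mod_cast hKT
  have hκ0p : 0 < κ0 := by rw [hκ0]; positivity
  have hκ01 : κ0 ≤ 1 := by rw [hκ0, div_le_one (by linarith)]; exact hKTr
  obtain ⟨C₂, hC₂⟩ : ∃ C₂ : ℝ, C₂ = C₁ ^ κ0 + 2 := ⟨_, rfl⟩
  have hC₂p : 0 < C₂ := by rw [hC₂]; positivity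
  refine ⟨κ0 / 2, 1 + 2 * 2 ^ T * C₂ / cT, by positivity, by positivity, X₁ + X₂ + X₃ + 16, ?_⟩
  intro X hX δ hδ
  have hXr : (16 : ℝ) ≤ X := by exact_mod_cast (by omega : 16 ≤ X)
  have he : Real.exp 1 < 3 := lt_trans Real.exp_one_lt_d9 (by norm_num)
  have hL1 : 1 ≤ Real.log X := by
    rw [Real.le_log_iff_exp_le (by linarith)]
    linarith
  have hL : 0 < Real.log X := by linarith
  have hX0 : (0 : ℝ) < X := by linarith
  have hlpow : 0 < Real.log X ^ (-(κ0 / 2)) := Real.rpow_pos_of_pos hL _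
  have hδpow : 0 < δ ^ (κ0 / 2) := Real.rpow_pos_of_pos hδ _
  rcases le_or_gt 1 δ with hδ1 | hδ1
  · -- trivial bound
    have h1 : (BadH k T Λ δ X).card ≤ ⌊Λ * Real.log X⌋₊ ^ T := by
      calc (BadH k T Λ δ X).card ≤ ((Ap Λ X).powersetCard T).card := by
            unfold BadH
            exact card_le_card (filter_subset _ _)
        _ = (⌊Λ * Real.log X⌋₊).choose T := by
            rw [card_powersetCard]
            unfold Ap
            rw [Nat.card_Icc, Nat.add_sub_cancel]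
        _ ≤ _ := Nat.choose_le_pow _ _
    have h2 : (⌊Λ * Real.log X⌋₊ : ℝ) ≤ Real.log X := by
      refine (Nat.floor_le (by positivity)).trans ?_
      nlinarith
    have h3 : (1 : ℝ) ≤ δ ^ (κ0 / 2) := Real.one_le_rpow hδ1 (by positivity)
    calc ((BadH k T Λ δ X).card : ℝ) ≤ (⌊Λ * Real.log X⌋₊ : ℝ) ^ T := by exact_mod_cast h1
      _ ≤ Real.log X ^ T := pow_le_pow_left₀ (by positivity) h2 _
      _ = 1 * 1 * Real.log X ^ T := by ring
      _ ≤ (1 + 2 * 2 ^ T * C₂ / cT) * (δ ^ (κ0 / 2) + Real.log X ^ (-(κ0 / 2))) *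
          Real.log X ^ T := by
          apply mul_le_mul_of_nonneg_right _ (by positivity)
          apply mul_le_mul
          · have : 0 ≤ 2 * 2 ^ T * C₂ / cT := by positivity
            linarith
          · linarith
          · norm_num
          · positivity
  -- main case
  have hW0 : (0 : ℝ) < Wm X := by exact_mod_cast Wpos X
  have hφ0 : (0 : ℝ) < Nat.totient (Wm X) := by exact_mod_cast Nat.totient_pos.2 (Wpos X)
  have hmain := hX₁ X (by omega) (2 * δ) (Real.sqrt δ) (by positivity) (Real.sqrt_pos.2 hδ)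
  have hNge := N_ge hW X (by omega)
  obtain ⟨N, hN⟩ : ∃ N : ℝ, N = Real.log X * (Nat.totient (Wm X) / Wm X) := ⟨_, rfl⟩
  have hN0 : 0 < N := by rw [hN]; positivity
  rw [← hN] at hmain hNge
  rw [← hκ0] at hmain
  have hAle : ∀ H ⊆ Ap Λ X, ∀ a ∈ H, 1 ≤ a ∧ (a : ℝ) ≤ Λ * Real.log X := by
    intro H hH a ha
    have h1 := hH ha
    unfold Ap at h1
    rw [mem_Icc] at h1
    exact ⟨h1.1, (Nat.le_floor_iff (by positivity)).1 h1.2⟩
  -- the exceptional sets are among those of the average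
  have hsub : BadH k T Λ δ X ⊆ HH' k T Λ (2 * δ) X := by
    intro H hH
    unfold BadH at hH
    unfold HH'
    rw [mem_filter] at hH ⊢
    refine ⟨hH.1, fun F hF hFc => ?_⟩
    have h1 := hH.2.2 F hF hFc
    unfold BadF
    refine lt_of_lt_of_le h1 ?_
    have hHA := (mem_powersetCard.1 hH.1).1
    have h2 := (hX₂ X (by omega) F hFc (hAle F (hF.trans hHA))).2
    have hex : (gW X F : ℝ) * ex X (k + 1) =
        (gW X F : ℝ) / Wm X * ((Wm X : ℝ) / Nat.totient (Wm X)) ^ (k + 1) *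
          (X / Real.log X ^ (k + 1)) := by
      unfold ex
      rw [← div_div, div_pow]
      ring
    rw [hex]
    have h3 : 0 ≤ (X : ℝ) / Real.log X ^ (k + 1) := by positivity
    have h4 : 0 ≤ (gW X F : ℝ) / Wm X * ((Wm X : ℝ) / Nat.totient (Wm X)) ^ (k + 1) := by
      positivity
    calc δ * (CT F * (X / Real.log X ^ (k + 1))) ≤
        δ * (((1 + 1 / 2) * ((gW X F : ℝ) / Wm X * ((Wm X : ℝ) / Nat.totient (Wm X)) ^ (k + 1))) *
          (X / Real.log X ^ (k + 1))) := by gcongr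
      _ ≤ δ * ((2 * ((gW X F : ℝ) / Wm X * ((Wm X : ℝ) / Nat.totient (Wm X)) ^ (k + 1))) *
          (X / Real.log X ^ (k + 1))) := by
          apply mul_le_mul_of_nonneg_left _ hδ.le
          apply mul_le_mul_of_nonneg_right _ h3
          linarith
      _ = _ := by ring
  -- the weight of the exceptional sets
  have hcount : cT * ((BadH k T Λ δ X).card : ℝ) ≤
      2 * (1 / Wm X * ((Wm X : ℝ) / Nat.totient (Wm X)) ^ T) *
        ∑ H ∈ HH' k T Λ (2 * δ) X, (gW X H : ℝ) := by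
    calc cT * ((BadH k T Λ δ X).card : ℝ) = ∑ _H ∈ BadH k T Λ δ X, cT := by
          rw [sum_const, nsmul_eq_mul]; ring
      _ ≤ ∑ H ∈ BadH k T Λ δ X,
          2 * (1 / Wm X * ((Wm X : ℝ) / Nat.totient (Wm X)) ^ T) * (gW X H : ℝ) := by
          apply sum_le_sum
          intro H hH
          unfold BadH at hH
          rw [mem_filter, mem_powersetCard] at hH
          have h1 := hcT' H hH.1.2 hH.2.1
          have h2 := (hX₃ X (by omega) H hH.1.2 (hAle H hH.1.1)).2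
          have h3 : 0 ≤ (gW X H : ℝ) / Wm X * ((Wm X : ℝ) / Nat.totient (Wm X)) ^ T := by
            positivity
          have h4 : 2 * (1 / Wm X * ((Wm X : ℝ) / Nat.totient (Wm X)) ^ T) * (gW X H : ℝ) =
              2 * ((gW X H : ℝ) / Wm X * ((Wm X : ℝ) / Nat.totient (Wm X)) ^ T) := by ring
          rw [h4]
          linarith
      _ = 2 * (1 / Wm X * ((Wm X : ℝ) / Nat.totient (Wm X)) ^ T) *
          ∑ H ∈ BadH k T Λ δ X, (gW X H : ℝ) := by rw [mul_sum]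
      _ ≤ _ := by
          apply mul_le_mul_of_nonneg_left _ (by positivity)
          apply sum_le_sum_of_subset_of_nonneg hsub
          intro _ _ _
          positivity
  -- the last factor
  have hfac : (C₁ * (Real.sqrt δ + 1 / N)) ^ κ0 + 2 * δ / Real.sqrt δ ≤
      C₂ * (δ ^ (κ0 / 2) + Real.log X ^ (-(κ0 / 2))) := by
    have h1 : (C₁ * (Real.sqrt δ + 1 / N)) ^ κ0 ≤
        C₁ ^ κ0 * (δ ^ (κ0 / 2) + Real.log X ^ (-(κ0 / 2))) := by
      rw [Real.mul_rpow hC₁.le (by positivity)]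
      apply mul_le_mul_of_nonneg_left _ (by positivity)
      refine (Real.rpow_add_le_add_rpow (Real.sqrt_nonneg δ) (by positivity) hκ0p.le hκ01).trans ?_
      apply add_le_add
      · rw [Real.sqrt_eq_rpow, ← Real.rpow_mul hδ.le]
        apply le_of_eq
        congr 1
        ring
      · have h2 : 1 / N ≤ Real.log X ^ (-(1 / 2 : ℝ)) := by
          rw [Real.rpow_neg hL.le, ← one_div]
          exact one_div_le_one_div_of_le (Real.rpow_pos_of_pos hL _) hNge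
        calc (1 / N) ^ κ0 ≤ (Real.log X ^ (-(1 / 2 : ℝ))) ^ κ0 :=
              Real.rpow_le_rpow (by positivity) h2 hκ0p.le
          _ = Real.log X ^ (-(κ0 / 2)) := by
              rw [← Real.rpow_mul hL.le]
              congr 1
              ring
    have h2 : 2 * δ / Real.sqrt δ = 2 * Real.sqrt δ := by
      rw [div_eq_iff (Real.sqrt_pos.2 hδ).ne', mul_assoc, Real.mul_self_sqrt hδ.le]
    have h3 : Real.sqrt δ ≤ δ ^ (κ0 / 2) := by
      rw [Real.sqrt_eq_rpow]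
      exact Real.rpow_le_rpow_of_exponent_ge hδ hδ1.le (by linarith)
    rw [h2, hC₂]
    nlinarith
  have hLpow : (1 / Wm X * ((Wm X : ℝ) / Nat.totient (Wm X)) ^ T) * (Wm X * (2 * N) ^ T) =
      2 ^ T * Real.log X ^ T := by
    have h1 : ((Wm X : ℝ) / Nat.totient (Wm X)) * (2 * N) = 2 * Real.log X := by
      rw [hN]; field_simp
    calc (1 / Wm X * ((Wm X : ℝ) / Nat.totient (Wm X)) ^ T) * (Wm X * (2 * N) ^ T) =
        (1 / Wm X * Wm X) * (((Wm X : ℝ) / Nat.totient (Wm X)) * (2 * N)) ^ T := by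
          rw [mul_pow]; ring
      _ = _ := by
          rw [h1, mul_pow, one_div, inv_mul_cancel₀ hW0.ne', one_mul]
  have hfinal : cT * ((BadH k T Λ δ X).card : ℝ) ≤
      2 * 2 ^ T * C₂ * (δ ^ (κ0 / 2) + Real.log X ^ (-(κ0 / 2))) * Real.log X ^ T := by
    calc cT * ((BadH k T Λ δ X).card : ℝ) ≤
        2 * (1 / Wm X * ((Wm X : ℝ) / Nat.totient (Wm X)) ^ T) *
          ∑ H ∈ HH' k T Λ (2 * δ) X, (gW X H : ℝ) := hcount
      _ ≤ 2 * (1 / Wm X * ((Wm X : ℝ) / Nat.totient (Wm X)) ^ T) *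
          (Wm X * (2 * N) ^ T * (C₂ * (δ ^ (κ0 / 2) + Real.log X ^ (-(κ0 / 2))))) := by
          apply mul_le_mul_of_nonneg_left _ (by positivity)
          refine hmain.trans ?_
          apply mul_le_mul_of_nonneg_left hfac (by positivity)
      _ = 2 * ((1 / Wm X * ((Wm X : ℝ) / Nat.totient (Wm X)) ^ T) * (Wm X * (2 * N) ^ T)) *
          (C₂ * (δ ^ (κ0 / 2) + Real.log X ^ (-(κ0 / 2)))) := by ring
      _ = _ := by rw [hLpow]; ring
  have h1 : ((BadH k T Λ δ X).card : ℝ) ≤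
      2 * 2 ^ T * C₂ * (δ ^ (κ0 / 2) + Real.log X ^ (-(κ0 / 2))) * Real.log X ^ T / cT := by
    rw [le_div_iff₀ hcT]
    linarith
  refine h1.trans ?_
  have h2 : 2 * 2 ^ T * C₂ * (δ ^ (κ0 / 2) + Real.log X ^ (-(κ0 / 2))) * Real.log X ^ T / cT =
      (2 * 2 ^ T * C₂ / cT) * (δ ^ (κ0 / 2) + Real.log X ^ (-(κ0 / 2))) * Real.log X ^ T := by
    ring
  rw [h2]
  apply mul_le_mul_of_nonneg_right _ (by positivity)
  apply mul_le_mul_of_nonneg_right _ (by positivity)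
  linarith

theorem main_k (k : ℕ) (hk : 1 ≤ k) : ∃ Λ κ C : ℝ, 0 < Λ ∧ Λ ≤ 1 ∧ 0 < κ ∧ 0 < C ∧ ∃ X₀ : ℕ,
    ∀ X : ℕ, X₀ ≤ X → ∀ δ : ℝ, 0 < δ →
      ((BadH k (8 * k ^ 2 + 1) Λ δ X).card : ℝ) ≤
        C * (δ ^ κ + Real.log X ^ (-κ)) * Real.log X ^ (8 * k ^ 2 + 1) := by
  obtain ⟨K, hK, Λ, hΛ, hΛ1, hMT⟩ := mtck k hk
  obtain ⟨κ, C, hκ, hC, X₀, h⟩ := main_X mv Pool.Agent.H363R2.PPCnt.cnt ctb Pool.Agent.H325R2.wtx
    k (8 * k ^ 2 + 1) K Λ hΛ hΛ1 (by nlinarith) hK hMT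
  exact ⟨Λ, κ, C, hΛ, hΛ1, hκ, hC, X₀, h⟩

end Pool.Agent.P8H6.Log
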