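import Pool.Agent.W973.HRC.DenK

/-!
# From few exceptional boxes to few exceptional tuples, with polynomial dependence
-/

set_option autoImplicit false

open Finset

namespace Pool.Agent.P8H6.Log

open Pool.Agent.W70.HRC Pool.Agent.W973.HRC

open Classical in
/-- few exceptional boxes, hence few exceptional tuples (over a finite type) -/
lemma tup_type {α : Type*} [Fintype α] [DecidableEq α] [Nonempty α] (k T K : ℕ) (hK : 1 ≤ K)
    (G : Finset α → Prop) (e : ℝ)
    (h : ((univ.filter (fun H : Fin T → Fin K → α =>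
        Function.Injective (fun x : Fin T × Fin K => H x.1 x.2) ∧
        ¬ ∃ (S : Finset (Fin T)) (c : Fin T → Fin K), S.card = k + 1 ∧
          G (S.image (fun g => H g (c g))))).card : ℝ) ≤ e * (Fintype.card α : ℝ) ^ (T * K)) :
    ((univ.filter (fun z : Fin T → α => Function.Injective z ∧ ∀ S : Finset (Fin T),
      S.card = k + 1 → ¬ G (S.image z))).card : ℝ) ≤
      (e + ((T * K : ℕ) : ℝ) ^ 2 / Fintype.card α) ^ (1 / (K ^ T : ℕ) : ℝ) *
        (Fintype.card α : ℝ) ^ T := by
  set n : ℝ := ((Fintype.card α : ℕ) : ℝ) with hndef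
  have hn0 : 0 < n := by rw [hndef]; exact_mod_cast Fintype.card_pos
  let B : (Fin T → α) → Prop := fun z => Function.Injective z ∧ ∀ S : Finset (Fin T),
    S.card = k + 1 → ¬ G (S.image z)
  set a : ℝ := ((univ.filter (fun z : Fin T → α => B z)).card : ℝ) / n ^ T with ha
  have ha0 : 0 ≤ a := by rw [ha]; positivity
  -- blow up
  have hblow := blowup (α := α) K T (fun z => if B z then 1 else 0)
    (fun z => by split_ifs <;> norm_num)
  have hav1 : av (fun z : Fin T → α => if B z then (1 : ℝ) else 0) = a := by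
    rw [av, ha, Fintype.card_fun, Fintype.card_fin, sum_boole]
    push_cast
    rfl
  have hav2 : av (fun H : Fin T → Fin K → α => ∏ c : Fin T → Fin K,
      (if B (fun g => H g (c g)) then (1 : ℝ) else 0)) =
      ((univ.filter (fun H : Fin T → Fin K → α =>
        ∀ c : Fin T → Fin K, B (fun g => H g (c g)))).card : ℝ) / n ^ (T * K) := by
    rw [av]
    have h1 : ∀ H : Fin T → Fin K → α, (∏ c : Fin T → Fin K,
        (if B (fun g => H g (c g)) then (1 : ℝ) else 0)) =
        if ∀ c : Fin T → Fin K, B (fun g => H g (c g)) then 1 else 0 := by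
      intro H
      rw [Finset.prod_boole]
      simp
    rw [sum_congr rfl fun H _ => h1 H, sum_boole, Fintype.card_fun, Fintype.card_fun,
      Fintype.card_fin, Fintype.card_fin, ← pow_mul]
    push_cast
    rw [mul_comm K T]
  rw [hav1, hav2] at hblow
  -- injective `H`
  have hni : ((univ.filter (fun H : Fin T → Fin K → α =>
      ¬ Function.Injective (fun x : Fin T × Fin K => H x.1 x.2))).card : ℝ) ≤
      ((T * K : ℕ) : ℝ) ^ 2 / n * n ^ (T * K) := by
    have h5 := noninj (ι := Fin T × Fin K) (α := α)
    have h6 : (univ.filter (fun H : Fin T → Fin K → α =>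
        ¬ Function.Injective (fun x : Fin T × Fin K => H x.1 x.2))).card ≤
        (univ.filter (fun f : Fin T × Fin K → α => ¬ Function.Injective f)).card := by
      refine card_le_card_of_injOn
        (fun (H : Fin T → Fin K → α) (x : Fin T × Fin K) => H x.1 x.2) ?_ ?_
      · intro H hH
        rw [mem_coe, mem_filter] at hH ⊢
        exact ⟨mem_univ _, hH.2⟩
      · intro H _ H' _ h
        funext g i
        exact congrFun h (g, i)
    refine le_trans (by exact_mod_cast h6) (?_ : ((univ.filter (fun f : Fin T × Fin K → α =>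
      ¬ Function.Injective f)).card : ℝ) ≤ _)
    rw [Fintype.card_prod, Fintype.card_fin, Fintype.card_fin, ← hndef] at h5
    refine le_of_mul_le_mul_right (h5.trans (le_of_eq ?_)) hn0
    field_simp
  have hfin : (univ.filter (fun H : Fin T → Fin K → α =>
      ∀ c : Fin T → Fin K, B (fun g => H g (c g)))) ⊆
      (univ.filter (fun H : Fin T → Fin K → α =>
        Function.Injective (fun x : Fin T × Fin K => H x.1 x.2) ∧
        ¬ ∃ (S : Finset (Fin T)) (c : Fin T → Fin K), S.card = k + 1 ∧
          G (S.image (fun g => H g (c g))))) ∪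
      (univ.filter (fun H : Fin T → Fin K → α =>
      ¬ Function.Injective (fun x : Fin T × Fin K => H x.1 x.2))) := by
    intro H hH
    rw [mem_filter] at hH
    rw [mem_union, mem_filter, mem_filter]
    by_cases hi : Function.Injective (fun x : Fin T × Fin K => H x.1 x.2)
    · refine Or.inl ⟨mem_univ _, hi, ?_⟩
      rintro ⟨S, c', hS, hG⟩
      exact (hH.2 c').2 S hS hG
    · exact Or.inr ⟨mem_univ _, hi⟩
  have hle := (card_le_card hfin).trans (card_union_le _ _)
  have hle' : ((univ.filter (fun H : Fin T → Fin K → α =>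
      ∀ c : Fin T → Fin K, B (fun g => H g (c g)))).card : ℝ) ≤
      ((univ.filter (fun H : Fin T → Fin K → α =>
        Function.Injective (fun x : Fin T × Fin K => H x.1 x.2) ∧
        ¬ ∃ (S : Finset (Fin T)) (c : Fin T → Fin K), S.card = k + 1 ∧
          G (S.image (fun g => H g (c g))))).card : ℝ) +
      ((univ.filter (fun H : Fin T → Fin K → α =>
      ¬ Function.Injective (fun x : Fin T × Fin K => H x.1 x.2))).card : ℝ) := by
    exact_mod_cast hle
  have hpow : a ^ (K ^ T) ≤ e + ((T * K : ℕ) : ℝ) ^ 2 / n := by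
    refine hblow.trans ?_
    rw [div_le_iff₀ (by positivity)]
    calc _ ≤ _ := hle'
      _ ≤ e * n ^ (T * K) + ((T * K : ℕ) : ℝ) ^ 2 / n * n ^ (T * K) := add_le_add h hni
      _ = _ := by ring
  have hKT : 0 < K ^ T := pow_pos (by omega) T
  have hroot : a ≤ (e + ((T * K : ℕ) : ℝ) ^ 2 / n) ^ (1 / (K ^ T : ℕ) : ℝ) := by
    have h1 : (a ^ (K ^ T)) ^ (1 / (K ^ T : ℕ) : ℝ) = a := by
      rw [one_div]
      exact Real.pow_rpow_inv_natCast ha0 hKT.ne'
    rw [← h1]
    exact Real.rpow_le_rpow (by positivity) hpow (by positivity)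
  rw [ha, div_le_iff₀ (by positivity)] at hroot
  exact hroot

open Classical in
/-- few exceptional boxes, hence few exceptional sets -/
theorem tup_set (k T K : ℕ) (hK : 1 ≤ K) (V : Finset ℕ) (hV : V.Nonempty) (G : Finset ℕ → Prop)
    (e : ℝ) (h : ((ExC G k T K V).card : ℝ) ≤ e * (V.card : ℝ) ^ (T * K)) :
    (((V.powersetCard T).filter (fun H => ∀ F ⊆ H, F.card = k + 1 → ¬ G F)).card : ℝ) ≤
      (e + ((T * K : ℕ) : ℝ) ^ 2 / V.card) ^ (1 / (K ^ T : ℕ) : ℝ) * (V.card : ℝ) ^ T := by
  have : Nonempty {x // x ∈ V} := by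
    obtain ⟨x, hx⟩ := hV
    exact ⟨⟨x, hx⟩⟩
  have hcard : Fintype.card {x // x ∈ V} = V.card := Fintype.card_coe V
  have hle : ((univ.filter (fun H : Fin T → Fin K → {x // x ∈ V} =>
        Function.Injective (fun x : Fin T × Fin K => H x.1 x.2) ∧
        ¬ ∃ (S : Finset (Fin T)) (c : Fin T → Fin K), S.card = k + 1 ∧
          G ((S.image (fun g => H g (c g))).image Subtype.val))).card : ℝ) ≤
      ((ExC G k T K V).card : ℝ) := by
    norm_cast
    refine card_le_card_of_injOn (fun H g i => (H g i : ℕ)) ?_ ?_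
    · intro H hH
      rw [mem_coe, mem_filter] at hH
      rw [mem_coe, ExC, mem_filter, Fintype.mem_piFinset]
      refine ⟨fun g => Fintype.mem_piFinset.2 fun i => (H g i).2,
        fun x y hxy => hH.2.1 (Subtype.ext hxy), ?_⟩
      rintro ⟨S, c, hS, hG⟩
      refine hH.2.2 ⟨S, c, hS, ?_⟩
      rw [image_image]
      exact hG
    · intro H _ H' _ h
      funext g i
      exact Subtype.ext (congrFun (congrFun h g) i)
  have hm := tup_type (α := {x // x ∈ V}) k T K hK (fun F => G (F.image Subtype.val)) e (by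
    rw [hcard]
    exact hle.trans h)
  rw [hcard] at hm
  refine le_trans ?_ hm
  norm_cast
  -- a set is the image of its increasing enumeration
  refine card_le_card_of_injOn (fun H => if hH : H ∈ V.powersetCard T then
    (fun i => (⟨H.orderEmbOfFin (mem_powersetCard.1 hH).2 i,
      (mem_powersetCard.1 hH).1 (orderEmbOfFin_mem _ _ i)⟩ : {x // x ∈ V})) else
    (fun _ => Classical.arbitrary _)) ?_ ?_
  · intro H hH
    rw [mem_coe, mem_filter] at hH
    rw [mem_coe, mem_filter]
    refine ⟨mem_univ _, ?_, ?_⟩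
    · intro i j hij
      simp only [hH.1, dif_pos] at hij
      exact (H.orderEmbOfFin (mem_powersetCard.1 hH.1).2).injective (Subtype.mk.inj hij)
    · intro S hS
      simp only [hH.1, dif_pos]
      rw [image_image]
      apply hH.2
      · intro y hy
        obtain ⟨i, -, rfl⟩ := mem_image.1 hy
        exact orderEmbOfFin_mem _ _ i
      · rw [card_image_of_injective, hS]
        intro i j hij
        exact (H.orderEmbOfFin (mem_powersetCard.1 hH.1).2).injective hij
  · intro H hH H' hH' he
    rw [mem_coe, mem_filter] at hH hH'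
    simp only [hH.1, hH'.1, dif_pos] at he
    have h1 := range_orderEmbOfFin H (mem_powersetCard.1 hH.1).2
    have h2 := range_orderEmbOfFin H' (mem_powersetCard.1 hH'.1).2
    rw [← coe_inj, ← h1, ← h2]
    ext y
    constructor
    · rintro ⟨i, rfl⟩
      refine ⟨i, ?_⟩
      have := congrArg Subtype.val (congrFun he i)
      exact this.symm
    · rintro ⟨i, rfl⟩
      refine ⟨i, ?_⟩
      have := congrArg Subtype.val (congrFun he i)
      exact this

end Pool.Agent.P8H6.Log
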